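import Pool.Agent.H27.CPX.SPL

/-!
# From spread sets to all sets
-/

namespace Pool.Agent.H27.CPX

open Finset Pool.Agent.H37.CPX

theorem mem_cyl {N : ℕ} {Q : Type} {T : Finset (Fin N)} {w : T → Q} {A : Finset (Fin N → Q)}
    {x : Fin N → Q} : x ∈ cyl T w A ↔ x ∈ A ∧ ∀ i : T, x i = w i := by
  classical
  rw [cyl, mem_filter]

theorem flat_cyl {N : ℕ} {Q : Type} (T : Finset (Fin N)) (w : T → Q) (A : Finset (Fin N → Q)) :
    Flat T (cyl T w A) := by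
  intro x hx x' hx' i hi
  rw [mem_cyl] at hx hx'
  rw [hx.2 ⟨i, hi⟩, hx'.2 ⟨i, hi⟩]

theorem cyl_sub {N : ℕ} {Q : Type} (T : Finset (Fin N)) (w : T → Q) (A : Finset (Fin N → Q)) :
    cyl T w A ⊆ A := fun _ hx => (mem_cyl.1 hx).1

theorem cyl_mono {N : ℕ} {Q : Type} (T : Finset (Fin N)) (w : T → Q) {A B : Finset (Fin N → Q)}
    (h : A ⊆ B) : cyl T w A ⊆ cyl T w B := fun _ hx =>
  mem_cyl.2 ⟨h (mem_cyl.1 hx).1, (mem_cyl.1 hx).2⟩

theorem flat_sub {N : ℕ} {Q : Type} {T : Finset (Fin N)} {A B : Finset (Fin N → Q)}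
    (h : A ⊆ B) (hB : Flat T B) : Flat T A :=
  fun x hx x' hx' i hi => hB x (h hx) x' (h hx') i hi

theorem mem_wset {N : ℕ} {Q : Type} {T : Finset (Fin N)} {w : T → Q} {A F : Finset (Fin N → Q)}
    (h : F ⊆ A) (hw : (cyl T w F).Nonempty) : w ∈ wset T A := by
  classical
  obtain ⟨x, hx⟩ := hw
  rw [mem_cyl] at hx
  rw [wset, mem_image]
  exact ⟨x, h hx.1, funext hx.2⟩

theorem num_one {W q k B S ka d : ℝ} (h2 : W ≤ q) (hk : 0 ≤ k) (hB : 0 ≤ B) (hS : 0 ≤ S)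
    (hka : k * q * B ≤ ka * d) : W * (k * (B * S)) ≤ ka * (S * d) := by
  have h1 := mul_le_mul_of_nonneg_right h2 (mul_nonneg hk (mul_nonneg hB hS))
  have h3 := mul_le_mul_of_nonneg_right hka hS
  linarith

theorem num_two {x y S ka k0 r B : ℝ} (hx : x ≤ k0 * r) (hy : y ≤ ka * S)
    (h5 : 2 * S + r ≤ B) (h6 : r ≤ B) (hka : 0 ≤ ka) (hk0 : ka ≤ 2 * k0) : x + y ≤ k0 * B := by
  have h1 := mul_nonneg hka (sub_nonneg.2 h5)
  have h2 := mul_nonneg (sub_nonneg.2 hk0) (sub_nonneg.2 h6)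
  linarith

/-- the choice of the small sets for the cells -/
theorem cj_ch {N : ℕ} {QX QY : Type}
    {Tri : (Fin N → QX) → (Fin N → QY) → Prop} {D : (Fin N → QX) → (Fin N → QY) → ℝ}
    {Ys : Finset (Fin N → QY)} {A : Finset (Fin N → QX)}
    {TV : Finset (Fin N) → Finset (Fin N)} {a : (V : Finset (Fin N)) → (TV V → QX) → ℝ}
    {kV MV : Finset (Fin N) → ℝ} {𝒱 : Finset (Finset (Fin N))}
    (h : ∀ V ∈ 𝒱, ∀ w : TV V → QX,
      PP Tri D (clF Ys (TV V)) (cyl (TV V) w A) (a V w) (kV V) (MV V)) :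
    ∃ E : (V : Finset (Fin N)) → (TV V → QX) → Finset (Fin N → QX),
      ∀ V ∈ 𝒱, ∀ w : TV V → QX, E V w ⊆ cyl (TV V) w A ∧ ((E V w).card : ℝ) ≤ a V w ∧
        ∀ B, clF Ys (TV V) B → ∃ E' ⊆ B, (E'.card : ℝ) ≤ kV V * Real.sqrt B.card ∧
          ∀ F ⊆ cyl (TV V) w A, ∀ G ⊆ B, Disjoint F (E V w) → Disjoint G E' →
            (∀ x ∈ F, ∀ y ∈ G, Tri x y) → |∑ x ∈ F, ∑ y ∈ G, D x y| ≤ MV V := by
  classical
  have h1 : ∀ (V : Finset (Fin N)) (w : TV V → QX), ∃ E : Finset (Fin N → QX), V ∈ 𝒱 →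
      E ⊆ cyl (TV V) w A ∧ (E.card : ℝ) ≤ a V w ∧
        ∀ B, clF Ys (TV V) B → ∃ E' ⊆ B, (E'.card : ℝ) ≤ kV V * Real.sqrt B.card ∧
          ∀ F ⊆ cyl (TV V) w A, ∀ G ⊆ B, Disjoint F E → Disjoint G E' →
            (∀ x ∈ F, ∀ y ∈ G, Tri x y) → |∑ x ∈ F, ∑ y ∈ G, D x y| ≤ MV V := by
    intro V w
    by_cases hV : V ∈ 𝒱
    · obtain ⟨E, hE, hc, hB⟩ := h V hV w
      exact ⟨E, fun _ => ⟨hE, hc, hB⟩⟩
    · exact ⟨∅, fun h => absurd h hV⟩
  choose E hE using h1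
  exact ⟨E, fun V hV w => hE V w hV⟩

/-- the second choice -/
theorem cj_ch2 {N : ℕ} {QX QY : Type}
    {Tri : (Fin N → QX) → (Fin N → QY) → Prop} {D : (Fin N → QX) → (Fin N → QY) → ℝ}
    {Ys : Finset (Fin N → QY)} {A : Finset (Fin N → QX)}
    {TV : Finset (Fin N) → Finset (Fin N)}
    {kV MV : Finset (Fin N) → ℝ} {𝒱 : Finset (Finset (Fin N))}
    {E : (V : Finset (Fin N)) → (TV V → QX) → Finset (Fin N → QX)}
    (h : ∀ V ∈ 𝒱, ∀ w : TV V → QX,
        ∀ B, clF Ys (TV V) B → ∃ E' ⊆ B, (E'.card : ℝ) ≤ kV V * Real.sqrt B.card ∧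
          ∀ F ⊆ cyl (TV V) w A, ∀ G ⊆ B, Disjoint F (E V w) → Disjoint G E' →
            (∀ x ∈ F, ∀ y ∈ G, Tri x y) → |∑ x ∈ F, ∑ y ∈ G, D x y| ≤ MV V)
    (C : Finset (Fin N) → Finset (Fin N → QY)) (hC : ∀ V, C V ⊆ Ys) :
    ∃ E' : (V : Finset (Fin N)) → (TV V → QX) → (TV V → QY) → Finset (Fin N → QY),
      ∀ V ∈ 𝒱, ∀ (w : TV V → QX) (w' : TV V → QY), E' V w w' ⊆ cyl (TV V) w' (C V) ∧
        ((E' V w w').card : ℝ) ≤ kV V * Real.sqrt (cyl (TV V) w' (C V)).card ∧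
          ∀ F ⊆ cyl (TV V) w A, ∀ G ⊆ cyl (TV V) w' (C V), Disjoint F (E V w) →
            Disjoint G (E' V w w') →
            (∀ x ∈ F, ∀ y ∈ G, Tri x y) → |∑ x ∈ F, ∑ y ∈ G, D x y| ≤ MV V := by
  classical
  have h1 : ∀ (V : Finset (Fin N)) (w : TV V → QX) (w' : TV V → QY),
      ∃ E' : Finset (Fin N → QY), V ∈ 𝒱 → E' ⊆ cyl (TV V) w' (C V) ∧
        (E'.card : ℝ) ≤ kV V * Real.sqrt (cyl (TV V) w' (C V)).card ∧
          ∀ F ⊆ cyl (TV V) w A, ∀ G ⊆ cyl (TV V) w' (C V), Disjoint F (E V w) →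
            Disjoint G E' →
            (∀ x ∈ F, ∀ y ∈ G, Tri x y) → |∑ x ∈ F, ∑ y ∈ G, D x y| ≤ MV V := by
    intro V w w'
    by_cases hV : V ∈ 𝒱
    · obtain ⟨E', h1, h2, h3⟩ := h V hV w (cyl (TV V) w' (C V))
        ⟨(cyl_sub _ _ _).trans (hC V), flat_cyl _ _ _⟩
      exact ⟨E', fun _ => ⟨h1, h2, h3⟩⟩
    · exact ⟨∅, fun h => absurd h hV⟩
  choose E' hE' using h1
  exact ⟨E', fun V hV w w' => hE' V w w' hV⟩

open Classical in
/-- the size of a union -/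
theorem cj_size {N : ℕ} {QX QY : Type} [Fintype QX] [Fintype QY]
    {TV : Finset (Fin N) → Finset (Fin N)} (𝒱 : Finset (Finset (Fin N)))
    (W : (V : Finset (Fin N)) → Finset (TV V → QX))
    (E' : (V : Finset (Fin N)) → (TV V → QX) → (TV V → QY) → Finset (Fin N → QY)) :
    (((𝒱.biUnion fun V => (W V).biUnion fun w => univ.biUnion fun w' => E' V w w').card : ℕ) : ℝ)
      ≤ ∑ V ∈ 𝒱, ∑ w ∈ W V, ∑ w' : TV V → QY, ((E' V w w').card : ℝ) := by
  have h1 : (𝒱.biUnion fun V => (W V).biUnion fun w => univ.biUnion fun w' => E' V w w').card ≤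
      ∑ V ∈ 𝒱, ∑ w ∈ W V, ∑ w' : TV V → QY, (E' V w w').card := by
    refine card_biUnion_le.trans (sum_le_sum fun V _ => ?_)
    refine card_biUnion_le.trans (sum_le_sum fun w _ => ?_)
    exact card_biUnion_le
  have h2 : (((𝒱.biUnion fun V => (W V).biUnion fun w =>
      univ.biUnion fun w' => E' V w w').card : ℕ) : ℝ) ≤
      ((∑ V ∈ 𝒱, ∑ w ∈ W V, ∑ w' : TV V → QY, (E' V w w').card : ℕ) : ℝ) := by
    exact_mod_cast h1
  refine h2.trans (le_of_eq ?_)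
  push_cast
  rfl

open Classical in
/-- the size of a union -/
theorem cj_size1 {N : ℕ} {QX : Type} [Fintype QX]
    {TV : Finset (Fin N) → Finset (Fin N)} (𝒱 : Finset (Finset (Fin N)))
    (E : (V : Finset (Fin N)) → (TV V → QX) → Finset (Fin N → QX)) :
    (((𝒱.biUnion fun V => univ.biUnion fun w => E V w).card : ℕ) : ℝ)
      ≤ ∑ V ∈ 𝒱, ∑ w : TV V → QX, ((E V w).card : ℝ) := by
  have h1 : (𝒱.biUnion fun V => univ.biUnion fun w => E V w).card ≤
      ∑ V ∈ 𝒱, ∑ w : TV V → QX, (E V w).card := by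
    refine card_biUnion_le.trans (sum_le_sum fun V _ => ?_)
    exact card_biUnion_le
  have h2 : (((𝒱.biUnion fun V => univ.biUnion fun w => E V w).card : ℕ) : ℝ) ≤
      ((∑ V ∈ 𝒱, ∑ w : TV V → QX, (E V w).card : ℕ) : ℝ) := by
    exact_mod_cast h1
  refine h2.trans (le_of_eq ?_)
  push_cast
  rfl

/-- one set `V` in the bound for the size -/
theorem cj_one (hJ : S_JEN) {N : ℕ} {QX QY : Type} [Fintype QX] [Fintype QY] {b : ℝ}
    {T V TV : Finset (Fin N)} {A : Finset (Fin N → QX)} {C : Finset (Fin N → QY)}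
    {E' : (TV → QX) → (TV → QY) → Finset (Fin N → QY)} {kV ka d : ℝ}
    (hb : 0 ≤ b) (hb2 : b ^ 2 = Fintype.card QY) (hA : Flat T A) (hC : Flat T C)
    (hT : T ∪ V ⊆ TV) (hk : 0 ≤ kV)
    (hE : ∀ w w', ((E' w w').card : ℝ) ≤ kV * Real.sqrt (cyl TV w' C).card)
    (hka : kV * (Fintype.card QX : ℝ) ^ (TV \ T).card * b ^ (TV \ (T ∪ V)).card ≤ ka * d) :
    ∑ w ∈ wset TV A, ∑ w' : TV → QY, ((E' w w').card : ℝ) ≤
      ka * ((∑ u : V → QY, Real.sqrt ((cyl V u C).card)) * d) := by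
  classical
  obtain ⟨-, -, -, -, h5⟩ := hJ N QY b T TV V C hb hb2 (subset_union_left.trans hT) hC
  have h5 := h5 (subset_union_right.trans hT)
  have h1 : ∀ w ∈ wset TV A, ∑ w' : TV → QY, ((E' w w').card : ℝ) ≤
      kV * (b ^ (TV \ (T ∪ V)).card * ∑ u : V → QY, Real.sqrt ((cyl V u C).card)) := by
    intro w _
    refine (sum_le_sum fun w' _ => hE w w').trans ?_
    rw [← mul_sum]
    exact mul_le_mul_of_nonneg_left h5 hk
  refine (sum_le_sum h1).trans ?_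
  rw [sum_const, nsmul_eq_mul]
  have h2 : ((wset TV A).card : ℝ) ≤ (Fintype.card QX : ℝ) ^ (TV \ T).card := by
    exact_mod_cast card_wset T TV A hA
  have h3 : 0 ≤ ∑ u : V → QY, Real.sqrt ((cyl V u C).card) :=
    sum_nonneg fun _ _ => Real.sqrt_nonneg _
  exact num_one h2 hk (pow_nonneg hb _) h3 hka

theorem cj_aux (hJ : S_JEN) (hS : S_SPL) (hG : S_GRD) {N : ℕ} {QX QY : Type}
    [Fintype QX] [Fintype QY] {b e : ℝ}
    {Tri : (Fin N → QX) → (Fin N → QY) → Prop} {D : (Fin N → QX) → (Fin N → QY) → ℝ}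
    {Ys : Finset (Fin N → QY)} {T : Finset (Fin N)} {A : Finset (Fin N → QX)}
    {TV : Finset (Fin N) → Finset (Fin N)} {a : (V : Finset (Fin N)) → (TV V → QX) → ℝ}
    {kV MV : Finset (Fin N) → ℝ} {a0 ka k0 M0 : ℝ} (𝒱 : Finset (Finset (Fin N)))
    (h𝒱 : ∀ V, V ∈ 𝒱 ↔ V.Nonempty ∧ Disjoint V T)
    (hb : 0 ≤ b) (hb2 : b ^ 2 = Fintype.card QY) (he : 0 < e) (hA : Flat T A) (hka : 0 ≤ ka)
    (hk0 : ka ≤ 2 * k0)
    (h : ∀ V ∈ 𝒱, T ∪ V ⊆ TV V ∧ 0 ≤ kV V ∧ 0 ≤ MV V ∧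
      (∀ w : TV V → QX, PP Tri D (clF Ys (TV V)) (cyl (TV V) w A) (a V w) (kV V) (MV V)) ∧
      kV V * (Fintype.card QX : ℝ) ^ (TV V \ T).card * b ^ (TV V \ (T ∪ V)).card ≤
        ka * (1 / (4 * e)) ^ V.card)
    (h0 : PP Tri D (clS (e ^ 2) Ys T) A a0 k0 M0) :
    PP Tri D (clF Ys T) A (a0 + ∑ V ∈ 𝒱, ∑ w, a V w) k0
      (M0 + ∑ V ∈ 𝒱, MV V * (Fintype.card QX : ℝ) ^ (TV V \ T).card *
        (Fintype.card QY : ℝ) ^ (TV V \ T).card) := by
  classical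
  obtain ⟨E0, hE0, hc0, hp0⟩ := h0
  obtain ⟨E, hE⟩ := cj_ch (fun V hV => (h V hV).2.2.2.1)
  refine ⟨E0 ∪ 𝒱.biUnion fun V => univ.biUnion fun w => E V w, ?_, ?_, ?_⟩
  · refine union_subset hE0 (biUnion_subset.2 fun V hV => biUnion_subset.2 fun w _ => ?_)
    exact (hE V hV w).1.trans (cyl_sub _ _ _)
  · have h1 : ((E0 ∪ 𝒱.biUnion fun V => univ.biUnion fun w => E V w).card : ℝ) ≤
        E0.card + (𝒱.biUnion fun V => univ.biUnion fun w => E V w).card := by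
      exact_mod_cast card_union_le _ _
    refine h1.trans (add_le_add hc0 ((cj_size1 𝒱 E).trans ?_))
    exact sum_le_sum fun V hV => sum_le_sum fun w _ => (hE V hV w).2.1
  · intro B hB
    obtain ⟨C, R, hCB, hRB, hCne, hCC, hCR, hcov, hspr, hsum⟩ := hG N QY e T B he
    obtain ⟨E0', hE0', hc0', hp0'⟩ := hp0 R ⟨hRB.trans hB.1, flat_sub hRB hB.2, hspr⟩
    obtain ⟨E', hE'⟩ := cj_ch2 (fun V hV w => (hE V hV w).2.2) C (fun V => (hCB V).trans hB.1)
    refine ⟨E0' ∪ 𝒱.biUnion fun V => (wset (TV V) A).biUnion fun w =>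
      univ.biUnion fun w' => E' V w w', ?_, ?_, ?_⟩
    · refine union_subset (hE0'.trans hRB) (biUnion_subset.2 fun V hV =>
        biUnion_subset.2 fun w _ => biUnion_subset.2 fun w' _ => ?_)
      exact ((hE' V hV w w').1.trans (cyl_sub _ _ _)).trans (hCB V)
    · have h1 : ((E0' ∪ 𝒱.biUnion fun V => (wset (TV V) A).biUnion fun w =>
          univ.biUnion fun w' => E' V w w').card : ℝ) ≤
          E0'.card + (𝒱.biUnion fun V => (wset (TV V) A).biUnion fun w =>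
          univ.biUnion fun w' => E' V w w').card := by
        exact_mod_cast card_union_le _ _
      refine h1.trans ?_
      have h2 := cj_size 𝒱 (fun V => wset (TV V) A) E'
      have h3 : ∑ V ∈ 𝒱, ∑ w ∈ wset (TV V) A, ∑ w' : TV V → QY, ((E' V w w').card : ℝ) ≤
          ∑ V ∈ 𝒱, ka * ((∑ u : V → QY, Real.sqrt ((cyl V u (C V)).card)) *
            (1 / (4 * e)) ^ V.card) :=
        sum_le_sum fun V hV => cj_one hJ hb hb2 hA (flat_sub (hCB V) hB.2) (h V hV).1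
          (h V hV).2.1 (fun w w' => (hE' V hV w w').2.1) (h V hV).2.2.2.2
      rw [← mul_sum] at h3
      have h4 : ∑ V ∈ 𝒱, (∑ u : V → QY, Real.sqrt ((cyl V u (C V)).card)) *
            (1 / (4 * e)) ^ V.card ≤
          ∑ V : Finset (Fin N), (∑ u : V → QY, Real.sqrt ((cyl V u (C V)).card)) *
            (1 / (4 * e)) ^ V.card :=
        sum_le_sum_of_subset_of_nonneg (subset_univ _) fun V _ _ =>
          mul_nonneg (sum_nonneg fun _ _ => Real.sqrt_nonneg _) (by positivity)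
      have h5 := mul_le_mul_of_nonneg_left h4 hka
      have h6 : Real.sqrt R.card ≤ Real.sqrt B.card :=
        Real.sqrt_le_sqrt (by exact_mod_cast card_le_card hRB)
      exact num_two hc0' (h2.trans (h3.trans h5)) hsum h6 hka hk0
    · intro F hF G hG' hFE hGE htri
      have hGs : G = (G ∩ R) ∪ 𝒱.biUnion fun V => G ∩ C V := by
        ext y
        rw [mem_union, mem_inter, mem_biUnion]
        constructor
        · intro hy
          rcases hcov y (hG' hy) with h1 | ⟨U, h1⟩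
          · exact Or.inl ⟨hy, h1⟩
          · exact Or.inr ⟨U, (h𝒱 U).2 (hCne U ⟨y, h1⟩), mem_inter.2 ⟨hy, h1⟩⟩
        · rintro (h1 | ⟨U, _, h1⟩)
          · exact h1.1
          · exact (mem_inter.1 h1).1
      have hd1 : Disjoint (G ∩ R) (𝒱.biUnion fun V => G ∩ C V) := by
        rw [disjoint_biUnion_right]
        intro V _
        exact ((hCR V).symm.mono_left inter_subset_right).mono_right inter_subset_right
      have hd2 : ∀ V ∈ 𝒱, ∀ V' ∈ 𝒱, V ≠ V' → Disjoint (G ∩ C V) (G ∩ C V') := by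
        intro V _ V' _ hne
        exact ((hCC V V' hne).mono_left inter_subset_right).mono_right inter_subset_right
      have hsp : ∑ x ∈ F, ∑ y ∈ G, D x y = ∑ x ∈ F, ∑ y ∈ G ∩ R, D x y +
          ∑ V ∈ 𝒱, ∑ x ∈ F, ∑ y ∈ G ∩ C V, D x y := by
        rw [sum_comm (s := 𝒱), ← sum_add_distrib]
        refine sum_congr rfl fun x _ => ?_
        conv_lhs => rw [hGs]
        rw [sum_union hd1, sum_biUnion hd2]
      rw [hsp]
      rw [disjoint_union_right] at hFE hGE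
      refine (abs_add_le _ _).trans (add_le_add ?_ ?_)
      · exact hp0' F hF (G ∩ R) inter_subset_right hFE.1 (hGE.1.mono_left inter_subset_left)
          (fun x hx y hy => htri x hx y (inter_subset_left hy))
      · refine (abs_sum_le_sum_abs _ _).trans (sum_le_sum fun V hV => ?_)
        obtain ⟨hTV, _, hM, _, _⟩ := h V hV
        refine hS N QX QY D T (TV V) F (G ∩ C V) (MV V) (subset_union_left.trans hTV)
          (flat_sub hF hA) (flat_sub (inter_subset_left.trans hG') hB.2) hM ?_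
        intro w w'
        rcases (cyl (TV V) w F).eq_empty_or_nonempty with hem | hne
        · rw [hem, sum_empty, abs_zero]
          exact hM
        · have hw := mem_wset hF hne
          refine (hE' V hV w w').2.2 _ (cyl_mono _ _ hF) _ (cyl_mono _ _ inter_subset_right)
            ?_ ?_ ?_
          · have h1 := hFE.2.mono_left (cyl_sub (TV V) w F)
            refine h1.mono_right ?_
            intro x hx
            exact mem_biUnion.2 ⟨V, hV, mem_biUnion.2 ⟨w, mem_univ _, hx⟩⟩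
          · have h1 := hGE.2.mono_left ((cyl_sub (TV V) w' (G ∩ C V)).trans inter_subset_left)
            refine h1.mono_right ?_
            intro x hx
            exact mem_biUnion.2 ⟨V, hV, mem_biUnion.2 ⟨w, hw, mem_biUnion.2 ⟨w', mem_univ _, hx⟩⟩⟩
          · intro x hx y hy
            exact htri x (cyl_sub _ _ _ hx) y (inter_subset_left (cyl_sub _ _ _ hy))

theorem pf_CJ (hJ : S_JEN) (hS : S_SPL) (hG : S_GRD) : S_CJ := by
  intro N QX QY _ _ b e Tri D Ys T A TV a kV MV a0 ka k0 M0 hb hb2 he hA hka hk0 _ h h0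
  refine cj_aux (kV := kV) hJ hS hG _ (fun V => ?_) hb hb2 he hA hka hk0 (fun V hV => ?_) h0
  · rw [mem_filter]
    exact ⟨fun h => h.2, fun h => ⟨mem_univ _, h⟩⟩
  · rw [mem_filter] at hV
    exact h V hV.2.1 hV.2.2

end Pool.Agent.H27.CPX
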