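import Pool.Agent.H37.CPX.Targets

/-!
# Inner nodes
-/

namespace Pool.Agent.H27.CPX

open Finset Pool.Agent.H37.CPX

/-- spread sets have spread large subsets -/
theorem spr_sub {N : ℕ} {Q : Type} {E c : ℝ} {T : Finset (Fin N)} {A F : Finset (Fin N → Q)}
    (hE : 0 ≤ E) (hc : 0 ≤ c) (hA : Spr E c T A) (hF : F ⊆ A)
    (h : (A.card : ℝ) ≤ 2 * F.card) : Spr E (c * 2) T F := by
  classical
  intro U hU hd u
  have h1 := hA U hU hd u
  have h2 : ((cyl U u F).card : ℝ) ≤ (cyl U u A).card := by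
    exact_mod_cast card_le_card (filter_subset_filter _ hF)
  have h3 : 0 ≤ E ^ U.card := pow_nonneg hE _
  calc ((cyl U u F).card : ℝ) * E ^ U.card ≤ (cyl U u A).card * E ^ U.card :=
        mul_le_mul_of_nonneg_right h2 h3
    _ ≤ c * A.card := h1
    _ ≤ c * (2 * F.card) := mul_le_mul_of_nonneg_left h hc
    _ = c * 2 * F.card := by ring

theorem pf_INN (hS : S_SUBB) (hP : S_POS) (hU : S_NUB) : S_INN := by
  intro N m k w0 P z lam s Tri u1 u2 w1 w2 Xs Ys hN hT h1 h2 hal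
  obtain ⟨T, J, X', Y', hX, hY, htri, hbox, hvol⟩ := hal
  obtain ⟨F, hF, G, hG, hcF, hcG, hFG⟩ := hS (PX N (P ^ 16)) (PY N (P ^ 16)) X' Y' u1 u2 w1 w2
    (fun x hx y hy => hT x y (htri x hx y hy))
  have hcF' : (X'.card : ℝ) ≤ 2 * F.card := by exact_mod_cast hcF
  have hcG' : (Y'.card : ℝ) ≤ 2 * G.card := by exact_mod_cast hcG
  have hb : Box s P T J 4 (2 ^ (P ^ 8 + 1)) F G := by
    refine ⟨fun x hx x' hx' => hbox.flX x (hF hx) x' (hF hx'),
      fun x hx x' hx' => hbox.flY x (hG hx) x' (hG hx'), hbox.nb, hbox.clo, hbox.card,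
      fun x hx y hy => hbox.con x (hF hx) y (hG hy), ?_, ?_⟩
    · have := spr_sub (by positivity) (by norm_num) hbox.spX hF hcF'
      have e : (2 : ℝ) * 2 = 4 := by norm_num
      rw [e] at this
      exact this
    · have := spr_sub (by positivity) (by positivity) hbox.spY hG hcG'
      have e : (2 : ℝ) ^ (P ^ 8) * 2 = 2 ^ (P ^ 8 + 1) := (pow_succ 2 (P ^ 8)).symm
      rw [e] at this
      exact this
  have hpos := hP N m k w0 P s T J F G hN.hk hN.hP hN.hPe hN.hm hb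
  have hsm : |∑ x ∈ F, ∑ y ∈ G, DD s P x y| ≤ MM N m k w0 P z := by
    rcases hFG with h | h
    · exact h1 F (hF.trans hX) G (hG.trans hY) h
    · exact h2 F (hF.trans hX) G (hG.trans hY) h
  have hs2 : ∑ x ∈ F, ∑ y ∈ G, s.D (pt x y) ≤ MM N m k w0 P z := (le_abs_self _).trans hsm
  have hMM : 0 ≤ MM N m k w0 P z := (abs_nonneg _).trans hsm
  obtain ⟨-, -, h3, -, -⟩ := hU N m k w0 P z lam 0 0 0 0 0 hN (Nat.zero_le _) (Nat.zero_le _)
    (Nat.zero_le _)
  have h4 : (X'.card : ℝ) * Y'.card ≤ (2 * F.card) * (2 * G.card) :=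
    mul_le_mul hcF' hcG' (by positivity) (by positivity)
  have h5 : (2 * (F.card : ℝ)) * (2 * G.card) = 4 * ((F.card : ℝ) * G.card) := by ring
  rw [h5] at h4
  linarith

end Pool.Agent.H27.CPX
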