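import Pool.Agent.H37.CPX.Targets

/-!
# Sums over the cells of a rectangle
-/

namespace Pool.Agent.H27.CPX

open Finset Pool.Agent.H37.CPX

open Classical in
/-- the restrictions of the points of `F` to `T'` -/
noncomputable def wset {N : ℕ} {Q : Type} (T' : Finset (Fin N)) (F : Finset (Fin N → Q)) :
    Finset (T' → Q) := F.image (fun x (i : T') => x i)

theorem sum_cells {N : ℕ} {Q : Type} (T' : Finset (Fin N)) (F : Finset (Fin N → Q))
    (g : (Fin N → Q) → ℝ) : ∑ x ∈ F, g x = ∑ w ∈ wset T' F, ∑ x ∈ cyl T' w F, g x := by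
  classical
  have h := Finset.sum_fiberwise_of_maps_to (s := F) (t := wset T' F)
    (g := fun x (i : T') => x i) (fun x hx => mem_image_of_mem _ hx) g
  rw [← h]
  refine sum_congr rfl fun w _ => ?_
  refine sum_congr ?_ fun _ _ => rfl
  ext x
  rw [cyl, mem_filter, mem_filter]
  constructor
  · rintro ⟨h1, h2⟩
    exact ⟨h1, fun i => congrFun h2 i⟩
  · rintro ⟨h1, h2⟩
    exact ⟨h1, funext h2⟩

theorem card_wset {N : ℕ} {Q : Type} [Fintype Q] (T T' : Finset (Fin N)) (F : Finset (Fin N → Q))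
    (hF : Flat T F) : (wset T' F).card ≤ Fintype.card Q ^ (T' \ T).card := by
  classical
  have h1 : (wset T' F).card ≤ (univ : Finset ((T' \ T : Finset (Fin N)) → Q)).card := by
    refine card_le_card_of_injOn (fun w i => w ⟨i, (mem_sdiff.1 i.2).1⟩)
      (fun _ _ => mem_univ _) ?_
    intro w hw w' hw' hww
    rw [mem_coe, wset, mem_image] at hw hw'
    obtain ⟨x, hx, rfl⟩ := hw
    obtain ⟨x', hx', rfl⟩ := hw'
    funext i
    by_cases hi : (i : Fin N) ∈ T
    · exact hF x hx x' hx' i hi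
    · exact congrFun hww ⟨i, mem_sdiff.2 ⟨i.2, hi⟩⟩
  rw [card_univ, Fintype.card_fun, Fintype.card_coe] at h1
  exact h1

theorem pf_SPL : S_SPL := by
  classical
  intro N QX QY _ _ D T T' F G M _ hF hG hM h
  rw [sum_cells T' F]
  have h1 : ∀ w ∈ wset T' F, |∑ x ∈ cyl T' w F, ∑ y ∈ G, D x y| ≤
      M * (Fintype.card QY : ℝ) ^ (T' \ T).card := by
    intro w _
    have e : ∑ x ∈ cyl T' w F, ∑ y ∈ G, D x y =
        ∑ w' ∈ wset T' G, ∑ x ∈ cyl T' w F, ∑ y ∈ cyl T' w' G, D x y := by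
      rw [Finset.sum_comm (s := wset T' G)]
      exact sum_congr rfl fun x _ => sum_cells T' G _
    rw [e]
    refine (abs_sum_le_sum_abs _ _).trans ?_
    refine (sum_le_sum fun w' _ => h w w').trans ?_
    rw [sum_const, nsmul_eq_mul, mul_comm]
    refine mul_le_mul_of_nonneg_left ?_ hM
    exact_mod_cast card_wset T T' G hG
  refine (abs_sum_le_sum_abs _ _).trans ?_
  refine (sum_le_sum h1).trans ?_
  rw [sum_const, nsmul_eq_mul]
  have h2 : ((wset T' F).card : ℝ) ≤ (Fintype.card QX : ℝ) ^ (T' \ T).card := by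
    exact_mod_cast card_wset T T' F hF
  have h3 : 0 ≤ M * (Fintype.card QY : ℝ) ^ (T' \ T).card := by positivity
  calc ((wset T' F).card : ℝ) * (M * (Fintype.card QY : ℝ) ^ (T' \ T).card)
      ≤ (Fintype.card QX : ℝ) ^ (T' \ T).card * (M * (Fintype.card QY : ℝ) ^ (T' \ T).card) :=
        mul_le_mul_of_nonneg_right h2 h3
    _ = _ := by ring

end Pool.Agent.H27.CPX
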